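import Mathlib
import Pool.Agent.H32R3.PV.Main
import Pool.Agent.Results.MP_0234e1_an.AsymptoticVariance

/-!
# MP_0234e1_an: the exact asymptotic size of `M_{n,p}` for every exponent `p > 0`

Let `M_{n,p}` be the supremum of `h(F, F') / σ_p(F)` over the polynomials of degree `n`.
We prove `n^(max(0, 1/p - 1)) ≤ M_{n,p} ≤ C n * n^(max(0, 1/p - 1))` for all real `p > 0` and all
`n ≥ 2`, with constants `C n → 1` which do not depend on `p`.
-/

open Filter Topology
open Pool.Agent.Results.MP_0234e1_an.AsymptoticVariance (pVariance)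
open Pool.Agent.H32R3.PV

namespace Pool.Agent.Results.MP_0234e1_an.AllExponents

/-- The one-sided Hausdorff distance from the zeros of `F` to its critical points. -/
noncomputable def hDist (F : Polynomial ℂ) : ℝ :=
  ⨆ z : {z : ℂ // F.IsRoot z}, ⨅ w : {w : ℂ // F.derivative.IsRoot w}, ‖(z : ℂ) - w‖

/-- The set of the quotients `h(F, F') / σ_p(F)` over all `F` of degree exactly `n` with at least two
distinct zeros. -/
def quotients (n : ℕ) (p : ℝ) : Set ℝ :=
  {x | ∃ F : Polynomial ℂ, F.natDegree = n ∧ (∃ z z' : ℂ, z ≠ z' ∧ F.IsRoot z ∧ F.IsRoot z') ∧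
    x = hDist F / pVariance p F}

/-- `M_{n,p}`, the supremum of the quotients `h(F, F') / σ_p(F)`. -/
noncomputable def M (n : ℕ) (p : ℝ) : ℝ := sSup (quotients n p)

lemma pVariance_nonneg (p : ℝ) (F : Polynomial ℂ) : 0 ≤ pVariance p F := by
  unfold pVariance
  refine Real.iInf_nonneg fun c => Real.rpow_nonneg (div_nonneg ?_ (by positivity)) _
  refine Multiset.sum_nonneg fun x hx => ?_
  obtain ⟨z, _, rfl⟩ := Multiset.mem_map.1 hx
  exact Real.rpow_nonneg (norm_nonneg _) _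

lemma pVariance_le {p : ℝ} (F : Polynomial ℂ) (c : ℂ) :
    pVariance p F ≤ ((F.roots.map fun z => ‖z - c‖ ^ p).sum / (F.natDegree : ℝ)) ^ (1 / p) := by
  unfold pVariance
  refine ciInf_le ⟨0, ?_⟩ c
  rintro _ ⟨c, rfl⟩
  refine Real.rpow_nonneg (div_nonneg ?_ (by positivity)) _
  refine Multiset.sum_nonneg fun x hx => ?_
  obtain ⟨z, _, rfl⟩ := Multiset.mem_map.1 hx
  exact Real.rpow_nonneg (norm_nonneg _) _

lemma sum_le_rpow (s : Multiset ℂ) (c : ℂ) {p : ℝ} (hp : 0 < p) (hp1 : p ≤ 1) :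
    0 ≤ (s.map fun z => ‖z - c‖).sum ∧
      (s.map fun z => ‖z - c‖).sum ^ p ≤ (s.map fun z => ‖z - c‖ ^ p).sum := by
  induction s using Multiset.induction_on with
  | empty => simp [Real.zero_rpow hp.ne']
  | cons a s ih =>
    simp only [Multiset.map_cons, Multiset.sum_cons]
    refine ⟨add_nonneg (norm_nonneg _) ih.1, ?_⟩
    exact (Real.rpow_add_le_add_rpow (norm_nonneg _) ih.1 hp.le hp1).trans
      (by linarith [ih.2])

/-- The mean of order one is bounded by `n^(max(0, 1/p - 1))` times the mean of order `p`. -/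
lemma mean_le_all {F : Polynomial ℂ} (hF : 0 < F.natDegree) {p : ℝ} (hp : 0 < p) (c : ℂ) :
    (F.roots.map fun z => ‖z - c‖).sum / (F.natDegree : ℝ) ≤
      (F.natDegree : ℝ) ^ (max 0 (1 / p - 1)) *
      ((F.roots.map fun z => ‖z - c‖ ^ p).sum / (F.natDegree : ℝ)) ^ (1 / p) := by
  have hn0 : (0:ℝ) < (F.natDegree : ℝ) := by exact_mod_cast hF
  rcases le_total 1 p with h | h
  · have h1 : max 0 (1 / p - 1) = 0 := by
      apply max_eq_left
      have : 1 / p ≤ 1 := by rw [div_le_one hp]; exact h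
      linarith
    rw [h1, Real.rpow_zero, one_mul]
    exact mean_le hF h c
  · have h1 : max 0 (1 / p - 1) = 1 / p - 1 := by
      apply max_eq_right
      have : 1 ≤ 1 / p := by rw [le_div_iff₀ hp]; linarith
      linarith
    obtain ⟨h0, h2⟩ := sum_le_rpow F.roots c hp h
    set S := (F.roots.map fun z => ‖z - c‖).sum with hS
    set T := (F.roots.map fun z => ‖z - c‖ ^ p).sum with hT
    have hT0 : 0 ≤ T := le_trans (Real.rpow_nonneg h0 _) h2
    have h3 : S ≤ T ^ (1 / p) := by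
      have := Real.rpow_le_rpow (Real.rpow_nonneg h0 _) h2 (by positivity : 0 ≤ 1 / p)
      rwa [← Real.rpow_mul h0, mul_one_div_cancel hp.ne', Real.rpow_one] at this
    rw [h1, Real.div_rpow hT0 hn0.le, Real.rpow_sub hn0, Real.rpow_one]
    have hpos : 0 < (F.natDegree : ℝ) ^ (1 / p) := Real.rpow_pos_of_pos hn0 _
    calc S / (F.natDegree : ℝ) ≤ T ^ (1 / p) / (F.natDegree : ℝ) := by gcongr
      _ = _ := by field_simp

lemma hDist_le {F : Polynomial ℂ} (hF : 2 ≤ F.natDegree) {B : ℝ}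
    (h : ∀ z : ℂ, F.IsRoot z → ∃ w : ℂ, F.derivative.IsRoot w ∧ ‖z - w‖ ≤ B) : hDist F ≤ B := by
  have hd : F.degree ≠ 0 := by
    have h0 := Polynomial.degree_ne_of_natDegree_ne (p := F) (n := 0) (by omega)
    simpa using h0
  obtain ⟨z0, hz0⟩ := IsAlgClosed.exists_root F hd
  have : Nonempty {z : ℂ // F.IsRoot z} := ⟨⟨z0, hz0⟩⟩
  unfold hDist
  refine ciSup_le fun z => ?_
  obtain ⟨w, hw, hle⟩ := h z.1 z.2
  refine (ciInf_le ⟨0, ?_⟩ (⟨w, hw⟩ : {w : ℂ // F.derivative.IsRoot w})).trans hle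
  rintro _ ⟨w, rfl⟩
  exact norm_nonneg _

lemma le_hDist {F : Polynomial ℂ} (hF : F ≠ 0) {z0 w0 : ℂ} (hz0 : F.IsRoot z0)
    (hw0 : F.derivative.IsRoot w0) {b : ℝ}
    (h : ∀ w : ℂ, F.derivative.IsRoot w → b ≤ ‖z0 - w‖) : b ≤ hDist F := by
  have : Finite {z : ℂ // F.IsRoot z} := by
    have : {z : ℂ | F.IsRoot z}.Finite := Polynomial.finite_setOfPred_isRoot hF
    exact this.to_subtype
  have : Nonempty {w : ℂ // F.derivative.IsRoot w} := ⟨⟨w0, hw0⟩⟩
  unfold hDist
  refine le_trans ?_ (le_ciSup (Set.finite_range _).bddAbove (⟨z0, hz0⟩ : {z : ℂ // F.IsRoot z}))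
  exact le_ciInf fun w => h w.1 w.2

/-- The first extremal polynomial: `z^n - 1`. -/
lemma example_one {n : ℕ} (hn : 2 ≤ n) {p : ℝ} (hp : 0 < p) :
    ∃ F : Polynomial ℂ, F.natDegree = n ∧ (∃ z z' : ℂ, z ≠ z' ∧ F.IsRoot z ∧ F.IsRoot z') ∧
      pVariance p F ≤ 1 ∧ 1 ≤ hDist F := by
  have hn0 : n ≠ 0 := by omega
  refine ⟨Polynomial.X ^ n - Polynomial.C 1, Polynomial.natDegree_X_pow_sub_C, ?_, ?_, ?_⟩
  · have hω := Complex.isPrimitiveRoot_exp n hn0
    refine ⟨Complex.exp (2 * Real.pi * Complex.I / n), 1, ?_, ?_, ?_⟩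
    · exact hω.ne_one (by omega)
    · simp [Polynomial.IsRoot, hω.pow_eq_one]
    · simp [Polynomial.IsRoot]
  · refine (pVariance_le _ 0).trans ?_
    have hne : (Polynomial.X ^ n - Polynomial.C 1 : Polynomial ℂ) ≠ 0 :=
      Polynomial.X_pow_sub_C_ne_zero (by omega) 1
    have h1 : ((Polynomial.X ^ n - Polynomial.C 1 : Polynomial ℂ).roots.map
        fun z => ‖z - 0‖ ^ p) = (Polynomial.X ^ n - Polynomial.C 1 : Polynomial ℂ).roots.map
        fun _ => (1:ℝ) := by
      refine Multiset.map_congr rfl fun z hz => ?_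
      have h2 := (Polynomial.mem_roots hne).1 hz
      have h3 : z ^ n = 1 := by
        simp only [Polynomial.IsRoot, Polynomial.eval_sub, Polynomial.eval_pow,
          Polynomial.eval_X, Polynomial.eval_C] at h2
        linear_combination h2
      have h4 : ‖z‖ = 1 := Complex.norm_eq_one_of_pow_eq_one h3 hn0
      rw [sub_zero, h4, Real.one_rpow]
    rw [h1, Multiset.map_const', Multiset.sum_replicate,
      ← (IsAlgClosed.splits _).natDegree_eq_card_roots, Polynomial.natDegree_X_pow_sub_C,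
      nsmul_eq_mul, mul_one, div_self (by exact_mod_cast hn0), Real.one_rpow]
  · have hne : (Polynomial.X ^ n - Polynomial.C 1 : Polynomial ℂ) ≠ 0 :=
      Polynomial.X_pow_sub_C_ne_zero (by omega) 1
    have hd : (Polynomial.X ^ n - Polynomial.C 1 : Polynomial ℂ).derivative =
        Polynomial.C (n : ℂ) * Polynomial.X ^ (n - 1) := by
      simp [Polynomial.derivative_X_pow]
    refine le_hDist hne (z0 := 1) (w0 := 0) (by simp [Polynomial.IsRoot]) ?_ fun w hw => ?_
    · rw [hd]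
      simp [Polynomial.IsRoot, show n - 1 ≠ 0 by omega]
    · rw [hd] at hw
      have h1 : w = 0 := by
        simp only [Polynomial.IsRoot, Polynomial.eval_mul, Polynomial.eval_C,
          Polynomial.eval_pow, Polynomial.eval_X, mul_eq_zero] at hw
        rcases hw with h | h
        · exact absurd h (by exact_mod_cast hn0)
        · exact (pow_eq_zero_iff (by omega)).1 h
      rw [h1]; simp

/-- The second extremal polynomial: `z (z - 1)^(n-1)`. -/
lemma example_two {n : ℕ} (hn : 2 ≤ n) {p : ℝ} (hp : 0 < p) :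
    ∃ F : Polynomial ℂ, F.natDegree = n ∧ (∃ z z' : ℂ, z ≠ z' ∧ F.IsRoot z ∧ F.IsRoot z') ∧
      pVariance p F ≤ (1 / (n : ℝ)) ^ (1 / p) ∧ 1 / (n : ℝ) ≤ hDist F := by
  obtain ⟨m, rfl⟩ : ∃ m, n = m + 2 := ⟨n - 2, by omega⟩
  have hX : (Polynomial.X : Polynomial ℂ) ≠ 0 := Polynomial.X_ne_zero
  have hX1 : (Polynomial.X - Polynomial.C 1 : Polynomial ℂ) ≠ 0 := Polynomial.X_sub_C_ne_zero 1
  have hne : (Polynomial.X * (Polynomial.X - Polynomial.C 1) ^ (m + 1) : Polynomial ℂ) ≠ 0 :=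
    mul_ne_zero hX (pow_ne_zero _ hX1)
  have hdeg : (Polynomial.X * (Polynomial.X - Polynomial.C 1) ^ (m + 1) : Polynomial ℂ).natDegree =
      m + 2 := by
    rw [Polynomial.natDegree_mul hX (pow_ne_zero _ hX1), Polynomial.natDegree_X,
      Polynomial.natDegree_pow, Polynomial.natDegree_X_sub_C]
    omega
  refine ⟨Polynomial.X * (Polynomial.X - Polynomial.C 1) ^ (m + 1), hdeg, ?_, ?_, ?_⟩
  · exact ⟨0, 1, zero_ne_one, by simp [Polynomial.IsRoot], by simp [Polynomial.IsRoot]⟩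
  · refine (pVariance_le _ 1).trans ?_
    rw [hdeg, Polynomial.roots_mul hne, Polynomial.roots_X, Polynomial.roots_pow,
      Polynomial.roots_X_sub_C]
    have : ((({0} : Multiset ℂ) + (m + 1) • ({1} : Multiset ℂ)).map fun z => ‖z - 1‖ ^ p).sum = 1 := by
      rw [Multiset.map_add, Multiset.sum_add, Multiset.map_nsmul, Multiset.sum_nsmul]
      simp [Real.zero_rpow hp.ne']
    rw [this]
  · refine le_hDist hne (z0 := 0) (w0 := 1 / ((m + 2 : ℕ) : ℂ)) (by simp [Polynomial.IsRoot]) ?_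
      fun w hw => ?_
    · simp only [Polynomial.IsRoot, Polynomial.derivative_mul, Polynomial.derivative_X,
        Polynomial.derivative_pow, Polynomial.derivative_sub, Polynomial.derivative_C,
        Polynomial.eval_add, Polynomial.eval_mul, Polynomial.eval_pow, Polynomial.eval_sub,
        Polynomial.eval_X, Polynomial.eval_C, one_mul, sub_zero, mul_one, Nat.add_sub_cancel]
      have h2 : ((m + 2 : ℕ) : ℂ) ≠ 0 := by exact_mod_cast (by omega : m + 2 ≠ 0)
      rw [pow_succ]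
      have h3 : (1 / ((m + 2 : ℕ) : ℂ) - 1) + 1 / ((m + 2 : ℕ) : ℂ) * ((m + 1 : ℕ) : ℂ) = 0 := by
        field_simp
        push_cast
        ring
      linear_combination (1 / ((m + 2 : ℕ) : ℂ) - 1) ^ m * h3
    · simp only [Polynomial.IsRoot, Polynomial.derivative_mul, Polynomial.derivative_X,
        Polynomial.derivative_pow, Polynomial.derivative_sub, Polynomial.derivative_C,
        Polynomial.eval_add, Polynomial.eval_mul, Polynomial.eval_pow, Polynomial.eval_sub,
        Polynomial.eval_X, Polynomial.eval_C, one_mul, sub_zero, mul_one, Nat.add_sub_cancel] at hw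
      have h3 : (w - 1) ^ m * (((m + 2 : ℕ) : ℂ) * w - 1) = 0 := by
        rw [← hw]; push_cast; ring
      have hm2 : (1:ℝ) ≤ ((m + 2 : ℕ) : ℝ) := by exact_mod_cast (by omega : 1 ≤ m + 2)
      rcases mul_eq_zero.1 h3 with h | h
      · have : w = 1 := by
          by_cases hm : m = 0
          · subst hm
            simp at h
          · have := (pow_eq_zero_iff hm).1 h
            linear_combination this
        rw [this, zero_sub, norm_neg, norm_one, div_le_one (by linarith)]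
        exact hm2
      · have h2 : ((m + 2 : ℕ) : ℂ) ≠ 0 := by exact_mod_cast (by omega : m + 2 ≠ 0)
        have : w = 1 / ((m + 2 : ℕ) : ℂ) := by
          rw [eq_div_iff h2]; linear_combination h
        rw [this, zero_sub, norm_neg, norm_div, norm_one, Complex.norm_natCast]

/-- **Main theorem.** -/
theorem result :
    ∃ C : ℕ → ℝ, (∀ n, 1 ≤ C n) ∧ Tendsto C atTop (𝓝 1) ∧
      (∀ n : ℕ, 1 ≤ n → C n ≤ 1 + 2 ^ 29 * (n : ℝ) ^ (-(1 / 6) : ℝ)) ∧
      -- the inequality, for all exponents, with constants independent of the exponent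
      (∀ p : ℝ, 0 < p → ∀ n : ℕ, 2 ≤ n → ∀ F : Polynomial ℂ, F.natDegree = n →
        ∀ z : ℂ, F.IsRoot z → ∃ w : ℂ, F.derivative.IsRoot w ∧
          ‖z - w‖ ≤ C n * (n : ℝ) ^ (max 0 (1 / p - 1)) * pVariance p F) ∧
      -- the size of `M_{n,p}`
      (∀ p : ℝ, 0 < p → ∀ n : ℕ, 2 ≤ n → BddAbove (quotients n p) ∧
        (n : ℝ) ^ (max 0 (1 / p - 1)) ≤ M n p ∧
        M n p ≤ C n * (n : ℝ) ^ (max 0 (1 / p - 1))) ∧
      -- the exact asymptotics
      (∀ p : ℝ, 0 < p →
        Tendsto (fun n : ℕ => M n p / (n : ℝ) ^ (max 0 (1 / p - 1))) atTop (𝓝 1)) ∧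
      -- the critical window: exponents which depend on `n`
      (∀ q : ℕ → ℝ, (∀ n, 0 < q n) →
        (Tendsto (fun n : ℕ => M n (q n)) atTop (𝓝 1) ↔
          Tendsto (fun n : ℕ => Real.log n * max 0 (1 / q n - 1)) atTop (𝓝 0))) := by
  obtain ⟨hC1, hCt, hCle⟩ : (∀ n : ℕ, (1:ℝ) ≤ 1 + 2 ^ 29 * (n : ℝ) ^ (-(1 / 6) : ℝ)) ∧
      Tendsto (fun n : ℕ => 1 + 2 ^ 29 * (n : ℝ) ^ (-(1 / 6) : ℝ)) atTop (𝓝 1) ∧ True := by
    refine ⟨fun n => ?_, ?_, trivial⟩
    · have : 0 ≤ (n : ℝ) ^ (-(1 / 6) : ℝ) := Real.rpow_nonneg (Nat.cast_nonneg n) _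
      linarith
    · have h1 : Tendsto (fun n : ℕ => (n : ℝ) ^ (-(1 / 6) : ℝ)) atTop (𝓝 0) :=
        (tendsto_rpow_neg_atTop (by norm_num : (0:ℝ) < 1 / 6)).comp tendsto_natCast_atTop_atTop
      have h2 := (h1.const_mul (2 ^ 29 : ℝ)).const_add 1
      simpa using h2
  have hA : ∀ p : ℝ, 0 < p → ∀ n : ℕ, 2 ≤ n → ∀ F : Polynomial ℂ, F.natDegree = n →
      ∀ z : ℂ, F.IsRoot z → ∃ w : ℂ, F.derivative.IsRoot w ∧
        ‖z - w‖ ≤ (1 + 2 ^ 29 * (n : ℝ) ^ (-(1 / 6) : ℝ)) * (n : ℝ) ^ (max 0 (1 / p - 1)) *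
          pVariance p F := by
    rintro p hp n hn F rfl z hz
    obtain ⟨w, hw, hle⟩ := dist_bound hn hz
    refine ⟨w, hw, ?_⟩
    have hn0 : (0:ℝ) < (F.natDegree : ℝ) := by exact_mod_cast (by omega : 0 < F.natDegree)
    have hC0 : 0 < 1 + 2 ^ 29 * (F.natDegree : ℝ) ^ (-(1 / 6) : ℝ) := by
      linarith [hC1 F.natDegree]
    have hE : 0 < (F.natDegree : ℝ) ^ (max 0 (1 / p - 1)) := Real.rpow_pos_of_pos hn0 _
    set K := (1 + 2 ^ 29 * (F.natDegree : ℝ) ^ (-(1 / 6) : ℝ)) *
      (F.natDegree : ℝ) ^ (max 0 (1 / p - 1)) with hK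
    have hK0 : 0 < K := mul_pos hC0 hE
    have h3 : ‖z - w‖ / K ≤ pVariance p F := by
      refine le_ciInf fun c => ?_
      rw [div_le_iff₀' hK0]
      refine (hle c).trans ?_
      rw [hK, mul_assoc]
      exact mul_le_mul_of_nonneg_left (mean_le_all (by omega) hp c) hC0.le
    rwa [div_le_iff₀' hK0] at h3
  have hB : ∀ p : ℝ, 0 < p → ∀ n : ℕ, 2 ≤ n → BddAbove (quotients n p) ∧
        (n : ℝ) ^ (max 0 (1 / p - 1)) ≤ M n p ∧
        M n p ≤ (1 + 2 ^ 29 * (n : ℝ) ^ (-(1 / 6) : ℝ)) * (n : ℝ) ^ (max 0 (1 / p - 1)) := by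
    intro p hp n hn
    have hn0 : (0:ℝ) < (n : ℝ) := by exact_mod_cast (by omega : 0 < n)
    have hE : 0 < (n : ℝ) ^ (max 0 (1 / p - 1)) := Real.rpow_pos_of_pos hn0 _
    set K := (1 + 2 ^ 29 * (n : ℝ) ^ (-(1 / 6) : ℝ)) * (n : ℝ) ^ (max 0 (1 / p - 1)) with hK
    have hK0 : 0 < K := mul_pos (by linarith [hC1 n]) hE
    have hup : ∀ F : Polynomial ℂ, F.natDegree = n → hDist F ≤ K * pVariance p F := by
      intro F hF
      exact hDist_le (by omega) fun z hz => hA p hp n hn F hF z hz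
    have hub : ∀ x ∈ quotients n p, x ≤ K := by
      rintro x ⟨F, hF, -, rfl⟩
      exact div_le_of_le_mul₀ (pVariance_nonneg p F) hK0.le (hup F hF)
    have hbdd : BddAbove (quotients n p) := ⟨K, hub⟩
    have hlow : ∃ F : Polynomial ℂ, F.natDegree = n ∧
        (∃ z z' : ℂ, z ≠ z' ∧ F.IsRoot z ∧ F.IsRoot z') ∧
        0 < hDist F ∧ (n : ℝ) ^ (max 0 (1 / p - 1)) * pVariance p F ≤ hDist F := by
      rcases le_total 1 p with h | h
      · obtain ⟨F, h1, h2, h3, h4⟩ := example_one hn hp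
        refine ⟨F, h1, h2, by linarith, ?_⟩
        have h5 : max 0 (1 / p - 1) = 0 := by
          apply max_eq_left
          have : 1 / p ≤ 1 := by rw [div_le_one hp]; exact h
          linarith
        rw [h5, Real.rpow_zero, one_mul]
        linarith
      · obtain ⟨F, h1, h2, h3, h4⟩ := example_two hn hp
        have h6 : 0 < 1 / (n : ℝ) := by positivity
        refine ⟨F, h1, h2, by linarith, ?_⟩
        have h5 : max 0 (1 / p - 1) = 1 / p - 1 := by
          apply max_eq_right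
          have : 1 ≤ 1 / p := by rw [le_div_iff₀ hp]; linarith
          linarith
        calc (n : ℝ) ^ (max 0 (1 / p - 1)) * pVariance p F
            ≤ (n : ℝ) ^ (max 0 (1 / p - 1)) * (1 / (n : ℝ)) ^ (1 / p) := by gcongr
          _ = 1 / (n : ℝ) := by
            rw [h5, Real.rpow_sub hn0, Real.rpow_one, Real.div_rpow zero_le_one hn0.le,
              Real.one_rpow]
            have : (n : ℝ) ^ (1 / p) ≠ 0 := (Real.rpow_pos_of_pos hn0 _).ne'
            field_simp
          _ ≤ hDist F := h4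
    obtain ⟨F, h1, h2, h3, h4⟩ := hlow
    have hpos : 0 < pVariance p F := by
      have := hup F h1
      by_contra hcon
      have h0 : pVariance p F = 0 := le_antisymm (not_lt.1 hcon) (pVariance_nonneg p F)
      rw [h0, mul_zero] at this
      linarith
    have hmem : hDist F / pVariance p F ∈ quotients n p := ⟨F, h1, h2, rfl⟩
    refine ⟨hbdd, ?_, csSup_le ⟨_, hmem⟩ hub⟩
    refine le_trans ?_ (le_csSup hbdd hmem)
    rwa [le_div_iff₀ hpos]
  refine ⟨fun n => 1 + 2 ^ 29 * (n : ℝ) ^ (-(1 / 6) : ℝ), hC1, hCt, fun n _ => le_rfl, hA, hB, ?_,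
    ?_⟩
  swap
  · intro q hq
    constructor
    · intro h
      have h1 : Tendsto (fun n : ℕ => (n : ℝ) ^ (max 0 (1 / q n - 1))) atTop (𝓝 1) := by
        refine tendsto_of_tendsto_of_tendsto_of_le_of_le' tendsto_const_nhds h ?_ ?_
        · filter_upwards [eventually_ge_atTop 2] with n hn
          exact Real.one_le_rpow (by exact_mod_cast (by omega : 1 ≤ n)) (le_max_left _ _)
        · filter_upwards [eventually_ge_atTop 2] with n hn
          exact (hB (q n) (hq n) n hn).2.1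
      have h2 := (Real.continuousAt_log one_ne_zero).tendsto.comp h1
      rw [Real.log_one] at h2
      refine h2.congr' ?_
      filter_upwards [eventually_ge_atTop 2] with n hn
      simp only [Function.comp]
      rw [Real.log_rpow (by exact_mod_cast (by omega : 0 < n)), mul_comm]
    · intro h
      have h1 : Tendsto (fun n : ℕ => (n : ℝ) ^ (max 0 (1 / q n - 1))) atTop (𝓝 1) := by
        have h2 := (Real.continuous_exp.tendsto 0).comp h
        rw [Real.exp_zero] at h2
        refine h2.congr' ?_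
        filter_upwards [eventually_ge_atTop 2] with n hn
        simp only [Function.comp]
        rw [Real.rpow_def_of_pos (by exact_mod_cast (by omega : 0 < n))]
      have h3 := hCt.mul h1
      rw [mul_one] at h3
      refine tendsto_of_tendsto_of_tendsto_of_le_of_le' h1 h3 ?_ ?_
      · filter_upwards [eventually_ge_atTop 2] with n hn
        exact (hB (q n) (hq n) n hn).2.1
      · filter_upwards [eventually_ge_atTop 2] with n hn
        exact (hB (q n) (hq n) n hn).2.2
  intro p hp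
  refine tendsto_of_tendsto_of_tendsto_of_le_of_le' tendsto_const_nhds hCt ?_ ?_
  · filter_upwards [eventually_ge_atTop 2] with n hn
    have hn0 : (0:ℝ) < (n : ℝ) := by exact_mod_cast (by omega : 0 < n)
    rw [le_div_iff₀ (Real.rpow_pos_of_pos hn0 _), one_mul]
    exact (hB p hp n hn).2.1
  · filter_upwards [eventually_ge_atTop 2] with n hn
    have hn0 : (0:ℝ) < (n : ℝ) := by exact_mod_cast (by omega : 0 < n)
    rw [div_le_iff₀ (Real.rpow_pos_of_pos hn0 _)]
    exact (hB p hp n hn).2.2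

end Pool.Agent.Results.MP_0234e1_an.AllExponents
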